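import Mathlib

set_option autoImplicit false

namespace Pool.Agent.Lib.MP_617207_lc

variable {V : Type}

/-- The total length of a walk. -/
noncomputable def walkLength {G : SimpleGraph V} (len : Sym2 V → ℝ) {s t : V}
    (p : G.Walk s t) : ℝ :=
  (p.edges.map len).sum

/-- `p` is a shortest path from `s` to `t`. -/
def IsShortest {G : SimpleGraph V} (len : Sym2 V → ℝ) {s t : V} (p : G.Walk s t) : Prop :=
  p.IsPath ∧ ∀ q : G.Walk s t, q.IsPath → walkLength len p ≤ walkLength len q

/-- A graph with positive edge lengths in which any two vertices of the same component are
joined by a unique shortest path. -/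
structure Network (V : Type) where
  G : SimpleGraph V
  len : Sym2 V → ℝ
  len_pos : ∀ e ∈ G.edgeSet, 0 < len e
  unique_shortest : ∀ s t : V, G.Reachable s t → ∃! p : G.Walk s t, IsShortest len p

/-- `e` is the bottleneck edge of the path `p`: its capacity is smaller than that of every other
edge of `p`. -/
def IsBottleneck {G : SimpleGraph V} (c : Sym2 V → ℝ) {s t : V} (p : G.Walk s t)
    (e : Sym2 V) : Prop :=
  e ∈ p.edges ∧ ∀ e' ∈ p.edges, e' ≠ e → c e < c e'

/-- What is learned at the vantage point `s`: all triples `(t, e, x)` such that `e` is the
bottleneck edge of the shortest path from `s` to `t` and `x` is its capacity. -/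
def observation (N : Network V) (c : Sym2 V → ℝ) (s : V) : Set (V × Sym2 V × ℝ) :=
  {o | ∃ p : N.G.Walk s o.1, IsShortest N.len p ∧ IsBottleneck c p o.2.1 ∧ o.2.2 = c o.2.1}

/-- `R(S)`: the edges that are the bottleneck edge of the shortest path from some `s ∈ S` to some
vertex `t`. -/
def revealed (N : Network V) (c : Sym2 V → ℝ) (S : Set V) : Set (Sym2 V) :=
  {e | ∃ s ∈ S, ∃ t, ∃ p : N.G.Walk s t, IsShortest N.len p ∧ IsBottleneck c p e}

/-- A history: the vantage points chosen so far, in order, each with what was learned there. -/
abbrev History (V : Type) := List (V × Set (V × Sym2 V × ℝ))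

/-- A deterministic adaptive algorithm (on a fixed network and for fixed `k`): given the history
it names the next vantage point or stops (`none`). -/
abbrev Strategy (V : Type) := History V → Option V

/-- The history after at most `j` choices of the algorithm `A` when the capacities are `c`. -/
def history (N : Network V) (c : Sym2 V → ℝ) (A : Strategy V) : ℕ → History V
  | 0 => []
  | j + 1 =>
    match A (history N c A j) with
    | none => history N c A j
    | some s => history N c A j ++ [(s, observation N c s)]

/-- The set of vantage points among the first `m` choices of the algorithm. -/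
def chosen (N : Network V) (c : Sym2 V → ℝ) (A : Strategy V) (m : ℕ) : Set V :=
  {s | ∃ o, (s, o) ∈ history N c A m}

/-- On the capacities `c` the algorithm `A` stops after at most `m` vantage points, and it then
has revealed at least `OPT(G, c, k)` capacities. -/
def Succeeds (N : Network V) (A : Strategy V) (k m : ℕ) (c : Sym2 V → ℝ) : Prop :=
  A (history N c A m) = none ∧
    ∀ S : Finset V, S.card = k →
      (revealed N c S).ncard ≤ (revealed N c (chosen N c A m)).ncard

end Pool.Agent.Lib.MP_617207_lc
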