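import Pool.Agent.Lib.MP_617207_lc.Defs

set_option autoImplicit false

namespace Pool.Agent.Lib.MP_617207_lc

/-! ### The rook graph with row-dependent lengths -/

section Rook

variable (k K : ℕ)

/-- The rook graph on `Fin k × Fin K`. -/
def rook : SimpleGraph (Fin k × Fin K) where
  Adj u v := (u.1 = v.1 ∧ u.2 ≠ v.2) ∨ (u.1 ≠ v.1 ∧ u.2 = v.2)
  symm := ⟨fun u v h => by
    rcases h with ⟨h1, h2⟩ | ⟨h1, h2⟩
    · exact Or.inl ⟨h1.symm, h2.symm⟩
    · exact Or.inr ⟨h1.symm, h2.symm⟩⟩
  loopless := ⟨fun u h => by
    rcases h with ⟨_, h2⟩ | ⟨h1, _⟩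
    · exact h2 rfl
    · exact h1 rfl⟩

/-- Lengths: `2k + i` for the edges inside row `i`, and `2k` for the edges inside columns. -/
noncomputable def rlen : Sym2 (Fin k × Fin K) → ℝ :=
  Sym2.lift ⟨fun u v => if u.1 = v.1 then (2 * k + (u.1 : ℕ) : ℝ) else 2 * k, by
    intro u v
    by_cases h : u.1 = v.1
    · simp [h]
    · simp [h, Ne.symm h]⟩

variable {k K}

theorem rlen_row (i : Fin k) (a b : Fin K) : rlen k K s((i, a), (i, b)) = 2 * k + (i : ℕ) := by
  simp [rlen]

theorem rlen_col (u v : Fin k × Fin K) (h : u.1 ≠ v.1) : rlen k K s(u, v) = 2 * k := by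
  simp [rlen, h]

theorem rlen_ge (e : Sym2 (Fin k × Fin K)) : (2 * k : ℝ) ≤ rlen k K e := by
  induction e using Sym2.ind with
  | _ u v =>
    by_cases h : u.1 = v.1
    · simp [rlen, h]
    · simp [rlen, h]

theorem walkLength_nil {V : Type} {G : SimpleGraph V} (len : Sym2 V → ℝ) (s : V) :
    walkLength len (SimpleGraph.Walk.nil : G.Walk s s) = 0 := by
  simp [walkLength]

theorem walkLength_cons {V : Type} {G : SimpleGraph V} (len : Sym2 V → ℝ) {s t u : V}
    (h : G.Adj s t) (p : G.Walk t u) :
    walkLength len (SimpleGraph.Walk.cons h p) = len s(s, t) + walkLength len p := by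
  simp [walkLength]

theorem walkLength_ge {s t : Fin k × Fin K} (p : (rook k K).Walk s t) :
    (2 * k : ℝ) * p.length ≤ walkLength (rlen k K) p := by
  induction p with
  | nil => simp [walkLength]
  | @cons u v w h p ih =>
    rw [walkLength_cons, SimpleGraph.Walk.length_cons]
    have := rlen_ge s(u, v)
    push_cast
    linarith

/-- If `i < j` and `a ≠ b`, the path `(i, a) → (i, b) → (j, b)`. -/
def hook {i j : Fin k} {a b : Fin K} (hij : i ≠ j) (hab : a ≠ b) :
    (rook k K).Walk (i, a) (j, b) :=
  SimpleGraph.Walk.cons (v := (i, b)) (Or.inl ⟨rfl, hab⟩)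
    (SimpleGraph.Walk.cons (v := (j, b)) (Or.inr ⟨hij, rfl⟩) SimpleGraph.Walk.nil)

/-- The path `(i, a) → (j, a) → (j, b)`. -/
def hook' {i j : Fin k} {a b : Fin K} (hij : i ≠ j) (hab : a ≠ b) :
    (rook k K).Walk (i, a) (j, b) :=
  SimpleGraph.Walk.cons (v := (j, a)) (Or.inr ⟨hij, rfl⟩)
    (SimpleGraph.Walk.cons (v := (j, b)) (Or.inl ⟨rfl, hab⟩) SimpleGraph.Walk.nil)

theorem hook_isPath {i j : Fin k} {a b : Fin K} (hij : i ≠ j) (hab : a ≠ b) :
    (hook hij hab).IsPath := by
  simp [hook, SimpleGraph.Walk.isPath_def, hij, hab]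

theorem hook'_isPath {i j : Fin k} {a b : Fin K} (hij : i ≠ j) (hab : a ≠ b) :
    (hook' hij hab).IsPath := by
  simp [hook', SimpleGraph.Walk.isPath_def, hij, hab]

theorem hook_edges {i j : Fin k} {a b : Fin K} (hij : i ≠ j) (hab : a ≠ b) :
    (hook hij hab).edges = [s((i, a), (i, b)), s((i, b), (j, b))] := rfl

theorem hook_length {i j : Fin k} {a b : Fin K} (hij : i ≠ j) (hab : a ≠ b) :
    walkLength (rlen k K) (hook hij hab) = 4 * k + (i : ℕ) := by
  rw [hook, walkLength_cons, walkLength_cons, walkLength_nil, rlen_row, rlen_col _ _ hij]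
  ring

theorem hook'_length {i j : Fin k} {a b : Fin K} (hij : i ≠ j) (hab : a ≠ b) :
    walkLength (rlen k K) (hook' hij hab) = 4 * k + (j : ℕ) := by
  rw [hook', walkLength_cons, walkLength_cons, walkLength_nil, rlen_row, rlen_col _ _ hij]
  ring

/-- A walk between opposite corners is one of the two hooks or has at least three edges. -/
theorem walk_cases {i j : Fin k} {a b : Fin K} (hij : i ≠ j) (hab : a ≠ b)
    (q : (rook k K).Walk (i, a) (j, b)) : q = hook hij hab ∨ q = hook' hij hab ∨ 3 ≤ q.length := by
  cases q with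
  | nil => exact absurd rfl hij
  | @cons _ w _ h1 q1 =>
    cases q1 with
    | nil =>
      rcases h1 with ⟨h1, h2⟩ | ⟨h1, h2⟩
      · exact absurd h1 hij
      · exact absurd h2 hab
    | @cons _ w2 _ h2 q2 =>
      cases q2 with
      | nil =>
        obtain ⟨w1, w2⟩ := w
        have h3 := h1
        have h4 := h2
        rcases h3 with ⟨e1, e2⟩ | ⟨e1, e2⟩ <;> rcases h4 with ⟨f1, f2⟩ | ⟨f1, f2⟩ <;>
          simp only at e1 e2 f1 f2
        · exact absurd (e1.trans f1) hij
        · subst e1 f2; left; rfl
        · subst e2 f1; right; left; rfl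
        · exact absurd (e2.trans f2) hab
      | cons h3 q3 =>
        right; right
        simp only [SimpleGraph.Walk.length_cons]
        omega

theorem exists_strict (s t : Fin k × Fin K) : ∃ p : (rook k K).Walk s t, p.IsPath ∧
    ∀ q : (rook k K).Walk s t, q.IsPath → q ≠ p →
      walkLength (rlen k K) p < walkLength (rlen k K) q := by
  obtain ⟨i, a⟩ := s
  obtain ⟨j, b⟩ := t
  have hi : ((i : ℕ) : ℝ) < k := by exact_mod_cast i.2
  have hj : ((j : ℕ) : ℝ) < k := by exact_mod_cast j.2
  have h0 : (0 : ℝ) ≤ (i : ℕ) := Nat.cast_nonneg _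
  by_cases hst : ((i, a) : Fin k × Fin K) = (j, b)
  · simp only [Prod.mk.injEq] at hst
    obtain ⟨rfl, rfl⟩ := hst
    refine ⟨SimpleGraph.Walk.nil, by simp, ?_⟩
    intro q hq hne
    exact absurd (SimpleGraph.Walk.isPath_iff_nil.1 hq).eq_nil hne
  · by_cases hadj : (rook k K).Adj (i, a) (j, b)
    · refine ⟨SimpleGraph.Walk.cons hadj SimpleGraph.Walk.nil, ?_, ?_⟩
      · simp [SimpleGraph.Walk.isPath_def]
        intro h1 h2
        exact hst (by rw [h1, h2])
      · intro q hq hne
        have hlen : 2 ≤ q.length := by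
          cases q with
          | nil => exact absurd rfl hst
          | cons h1 q1 =>
            cases q1 with
            | nil => exact absurd rfl hne
            | cons h2 q2 => simp only [SimpleGraph.Walk.length_cons]; omega
        have h1 := walkLength_ge q
        have h2 : (2 : ℝ) ≤ q.length := by exact_mod_cast hlen
        have h3 : (0 : ℝ) ≤ 2 * k := by linarith
        have h4 := mul_le_mul_of_nonneg_left h2 h3
        rw [walkLength_cons, walkLength_nil]
        have h5 : rlen k K s((i, a), (j, b)) ≤ 2 * k + (i : ℕ) := by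
          by_cases hij : i = j
          · subst hij; rw [rlen_row]
          · rw [rlen_col _ _ hij]; linarith
        linarith
    · have hij : i ≠ j := by
        intro h
        apply hadj
        left
        exact ⟨h, fun h2 => hst (by rw [h]; simpa using h2)⟩
      have hab : a ≠ b := by
        intro h
        apply hadj
        right
        exact ⟨hij, h⟩
      have hk : ∀ q : (rook k K).Walk (i, a) (j, b), 3 ≤ q.length →
          (6 * k : ℝ) ≤ walkLength (rlen k K) q := by
        intro q hq
        have h1 := walkLength_ge q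
        have h2 : (3 : ℝ) ≤ q.length := by exact_mod_cast hq
        have h3 : (0 : ℝ) ≤ 2 * k := by linarith
        have h4 := mul_le_mul_of_nonneg_left h2 h3
        linarith
      rcases lt_or_gt_of_ne hij with hlt | hlt
      · have hlt' : ((i : ℕ) : ℝ) < (j : ℕ) := by exact_mod_cast hlt
        refine ⟨hook hij hab, hook_isPath hij hab, ?_⟩
        intro q _ hne
        rw [hook_length]
        rcases walk_cases hij hab q with h | h | h
        · exact absurd h hne
        · rw [h, hook'_length]; linarith
        · have := hk q h; linarith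
      · have hlt' : ((j : ℕ) : ℝ) < (i : ℕ) := by exact_mod_cast hlt
        refine ⟨hook' hij hab, hook'_isPath hij hab, ?_⟩
        intro q _ hne
        rw [hook'_length]
        rcases walk_cases hij hab q with h | h | h
        · rw [h, hook_length]; linarith
        · exact absurd h hne
        · have := hk q h; linarith

theorem existsUnique_of_strict {V : Type} {G : SimpleGraph V} {len : Sym2 V → ℝ} {s t : V}
    (p : G.Walk s t) (hp : p.IsPath)
    (h : ∀ q : G.Walk s t, q.IsPath → q ≠ p → walkLength len p < walkLength len q) :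
    IsShortest len p ∧ ∀ q : G.Walk s t, IsShortest len q → q = p := by
  constructor
  · refine ⟨hp, fun q hq => ?_⟩
    by_cases hqp : q = p
    · rw [hqp]
    · exact (h q hq hqp).le
  · intro q hq
    by_contra hqp
    have h1 := h q hq.1 hqp
    have h2 := hq.2 p hp
    linarith

/-- The rook network. -/
noncomputable def rookNet (k K : ℕ) : Network (Fin k × Fin K) where
  G := rook k K
  len := rlen k K
  len_pos := by
    intro e he
    induction e using Sym2.ind with
    | _ u v =>
      have h1 := rlen_ge s(u, v)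
      have h2 : (0 : ℝ) < k := by exact_mod_cast (Fin.pos u.1)
      linarith
  unique_shortest := by
    intro s t _
    obtain ⟨p, hp, h⟩ := exists_strict s t
    obtain ⟨h1, h2⟩ := existsUnique_of_strict p hp h
    exact ⟨p, h1, h2⟩

theorem hook_shortest {i j : Fin k} {a b : Fin K} (hij : i < j) (hab : a ≠ b) :
    IsShortest (rlen k K) (hook hij.ne hab) := by
  refine ⟨hook_isPath hij.ne hab, fun q _ => ?_⟩
  have hi : ((i : ℕ) : ℝ) < k := by exact_mod_cast i.2
  have h0 : (0 : ℝ) ≤ (i : ℕ) := Nat.cast_nonneg _
  have hlt' : ((i : ℕ) : ℝ) < (j : ℕ) := by exact_mod_cast hij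
  rw [hook_length]
  rcases walk_cases hij.ne hab q with h | h | h
  · rw [h, hook_length]
  · rw [h, hook'_length]; linarith
  · have h1 := walkLength_ge q
    have h2 : (3 : ℝ) ≤ q.length := by exact_mod_cast h
    have h3 : (0 : ℝ) ≤ 2 * k := by linarith
    have h4 := mul_le_mul_of_nonneg_left h2 h3
    linarith

theorem edge_shortest {s t : Fin k × Fin K} (h : (rook k K).Adj s t) :
    IsShortest (rlen k K) (SimpleGraph.Walk.cons h SimpleGraph.Walk.nil) := by
  obtain ⟨i, a⟩ := s
  obtain ⟨j, b⟩ := t
  have hi : ((i : ℕ) : ℝ) < k := by exact_mod_cast i.2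
  have h0 : (0 : ℝ) ≤ (i : ℕ) := Nat.cast_nonneg _
  refine ⟨?_, ?_⟩
  · simp only [SimpleGraph.Walk.isPath_def, SimpleGraph.Walk.support_cons,
      SimpleGraph.Walk.support_nil]
    simp [h.ne]
  · intro q _
    rw [walkLength_cons, walkLength_nil]
    have h5 : rlen k K s((i, a), (j, b)) ≤ 2 * k + (i : ℕ) := by
      by_cases hij : i = j
      · subst hij; rw [rlen_row]
      · rw [rlen_col _ _ hij]; linarith
    cases q with
    | nil => exact absurd h ((rook k K).loopless.irrefl _)
    | cons h1 q1 =>
      cases q1 with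
      | nil => rw [walkLength_cons, walkLength_nil]
      | cons h2 q2 =>
        have h6 := walkLength_ge (SimpleGraph.Walk.cons h1 (SimpleGraph.Walk.cons h2 q2))
        have h7 : (2 : ℝ) ≤ (SimpleGraph.Walk.cons h1 (SimpleGraph.Walk.cons h2 q2)).length := by
          simp only [SimpleGraph.Walk.length_cons]
          push_cast
          have : (0 : ℝ) ≤ q2.length := Nat.cast_nonneg _
          linarith
        have h3 : (0 : ℝ) ≤ 2 * k := by linarith
        have h4 := mul_le_mul_of_nonneg_left h7 h3
        linarith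

end Rook

/-! ### The adversary -/

section Adversary

variable {V : Type}

/-- In a nonempty path starting at `s` some edge is incident to `s`. -/
theorem exists_first_edge {G : SimpleGraph V} {s t : V} (p : G.Walk s t) {e : Sym2 V}
    (he : e ∈ p.edges) : ∃ f ∈ p.edges, s ∈ f := by
  cases p with
  | nil => simp at he
  | @cons _ v _ h q => exact ⟨s(s, v), by simp, by simp⟩

/-- The observation at `s` depends only on the small capacities, provided that all edges at `s`
have small capacity. -/
theorem bottleneck_congr {G : SimpleGraph V} (c c' : Sym2 V → ℝ) (θ : ℝ) {s t : V}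
    (p : G.Walk s t) (h1 : ∀ e, c e ≤ θ → c' e = c e) (h2 : ∀ e, c' e ≤ θ → c e = c' e)
    (hs : ∀ e, s ∈ e → c e ≤ θ) {e : Sym2 V} (he : IsBottleneck c p e) :
    c e ≤ θ ∧ IsBottleneck c' p e := by
  obtain ⟨hmem, hmin⟩ := he
  obtain ⟨f, hf, hsf⟩ := exists_first_edge p hmem
  have hce : c e ≤ θ := by
    by_cases hfe : f = e
    · rw [← hfe]; exact hs f hsf
    · exact (hmin f hf hfe).le.trans (hs f hsf)
  refine ⟨hce, hmem, fun e' he' hne => ?_⟩
  rw [h1 e hce]
  by_cases h : c' e' ≤ θ
  · rw [← h2 e' h]; exact hmin e' he' hne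
  · push Not at h; linarith

theorem observation_congr (N : Network V) (c c' : Sym2 V → ℝ) (θ : ℝ) (s : V)
    (h1 : ∀ e, c e ≤ θ → c' e = c e) (h2 : ∀ e, c' e ≤ θ → c e = c' e)
    (hs : ∀ e, s ∈ e → c e ≤ θ) : observation N c s = observation N c' s := by
  have hs' : ∀ e, s ∈ e → c' e ≤ θ := fun e he => by rw [h1 e (hs e he)]; exact hs e he
  ext ⟨t, e, x⟩
  simp only [observation, Set.mem_ofPred_eq]
  constructor
  · rintro ⟨p, hp, hb, hx⟩
    obtain ⟨h3, h4⟩ := bottleneck_congr c c' θ p h1 h2 hs hb
    exact ⟨p, hp, h4, by rw [hx, h1 e h3]⟩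
  · rintro ⟨p, hp, hb, hx⟩
    obtain ⟨h3, h4⟩ := bottleneck_congr c' c θ p h2 h1 hs' hb
    exact ⟨p, hp, h4, by rw [hx, h2 e h3]⟩

open Classical in
/-- Capacities: an edge touching the list `L` gets (about) the position of the first vertex of `L`
that it touches; the other edges get (about) `d`. -/
noncomputable def cap (ε d : Sym2 V → ℝ) (L : List V) (e : Sym2 V) : ℝ :=
  ε e + if L.findIdx (fun v => decide (v ∈ e)) < L.length then
    (L.findIdx (fun v => decide (v ∈ e)) : ℝ) + 1 else d e

variable (ε d : Sym2 V → ℝ)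

theorem cap_low (hε : ∀ e, ε e < 1 / 2) (L : List V) (e : Sym2 V) (v : V) (hv : v ∈ L)
    (hve : v ∈ e) : cap ε d L e ≤ L.length + 1 / 2 := by
  classical
  have : L.findIdx (fun v => decide (v ∈ e)) < L.length := by
    rw [List.findIdx_lt_length]
    exact ⟨v, hv, by simpa using hve⟩
  unfold cap
  rw [if_pos this]
  have h2 : ((L.findIdx (fun v => decide (v ∈ e)) : ℕ) : ℝ) + 1 ≤ L.length := by
    exact_mod_cast this
  have := hε e
  linarith

theorem cap_append (hε0 : ∀ e, 0 ≤ ε e) (L R : List V) (m : ℕ)
    (hm : (L ++ R).length ≤ m) (hd : ∀ e, (m : ℝ) + 2 ≤ d e) (e : Sym2 V) :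
    (cap ε d L e ≤ L.length + 1 / 2 → cap ε d (L ++ R) e = cap ε d L e) ∧
    (cap ε d (L ++ R) e ≤ L.length + 1 / 2 → cap ε d L e = cap ε d (L ++ R) e) := by
  classical
  have hLm : (L.length : ℝ) ≤ m := by
    have : L.length ≤ m := by rw [List.length_append] at hm; omega
    exact_mod_cast this
  have hd' := hd e
  have hε' := hε0 e
  by_cases h : L.findIdx (fun v => decide (v ∈ e)) < L.length
  · have : cap ε d (L ++ R) e = cap ε d L e := by
      unfold cap
      rw [List.findIdx_append, if_pos h, if_pos h, if_pos (by rw [List.length_append]; omega)]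
    exact ⟨fun _ => this, fun _ => this.symm⟩
  · constructor
    · intro h1
      exfalso
      unfold cap at h1
      rw [if_neg h] at h1
      linarith
    · intro h1
      exfalso
      unfold cap at h1
      rw [List.findIdx_append, if_neg h] at h1
      split_ifs at h1 with h2
      · push_cast at h1
        have : (0 : ℝ) ≤ (R.findIdx (fun v => decide (v ∈ e)) : ℕ) := Nat.cast_nonneg _
        linarith
      · linarith

theorem cap_of_notMem (L : List V) (e : Sym2 V) (h : ∀ v ∈ L, v ∉ e) :
    cap ε d L e = ε e + d e := by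
  classical
  unfold cap
  rw [if_neg]
  rw [List.findIdx_lt_length]
  rintro ⟨v, hv, hve⟩
  exact h v hv (by simpa using hve)

theorem cap_nat (L : List V) (e : Sym2 V) :
    (∃ n : ℕ, cap ε d L e = ε e + n) ∨ cap ε d L e = ε e + d e := by
  classical
  unfold cap
  split_ifs
  · left
    exact ⟨L.findIdx (fun v => decide (v ∈ e)) + 1, by push_cast; rfl⟩
  · right; rfl

/-- The history that the adversary produces. -/
noncomputable def advHistory (N : Network V) (A : Strategy V) : ℕ → History V
  | 0 => []
  | j + 1 =>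
    match A (advHistory N A j) with
    | none => advHistory N A j
    | some s => advHistory N A j ++
        [(s, observation N (cap ε d ((advHistory N A j).map Prod.fst ++ [s])) s)]

theorem advHistory_length (N : Network V) (A : Strategy V) (j : ℕ) :
    (advHistory ε d N A j).length ≤ j := by
  induction j with
  | zero => simp [advHistory]
  | succ j ih =>
    simp only [advHistory]
    split
    · omega
    · simp; omega

theorem advHistory_prefix (N : Network V) (A : Strategy V) {i j : ℕ} (hij : i ≤ j) :
    advHistory ε d N A i <+: advHistory ε d N A j := by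
  induction j, hij using Nat.le_induction with
  | base => exact List.prefix_rfl
  | succ j _ ih =>
    refine ih.trans ?_
    conv_rhs => rw [advHistory]
    split
    · exact List.prefix_rfl
    · exact List.prefix_append _ _

/-- The run against the final capacities is the adversary's history. -/
theorem history_eq (N : Network V) (A : Strategy V) (m : ℕ) (hε0 : ∀ e, 0 ≤ ε e)
    (hε : ∀ e, ε e < 1 / 2) (hd : ∀ e, (m : ℝ) + 2 ≤ d e) (j : ℕ) (hj : j ≤ m) :
    history N (cap ε d ((advHistory ε d N A m).map Prod.fst)) A j = advHistory ε d N A j := by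
  induction j with
  | zero => rfl
  | succ j ih =>
    have ih' := ih (by omega)
    simp only [history, ih']
    have hpre := advHistory_prefix ε d N A hj
    have hlen := advHistory_length ε d N A m
    simp only [advHistory] at hpre ⊢
    rcases hA : A (advHistory ε d N A j) with _ | s
    · rfl
    · simp only [hA] at hpre
      obtain ⟨R, hR⟩ := hpre
      have hL : (advHistory ε d N A m).map Prod.fst =
          ((advHistory ε d N A j).map Prod.fst ++ [s]) ++ R.map Prod.fst := by
        rw [← hR]; simp
      have hlen' : (((advHistory ε d N A j).map Prod.fst ++ [s]) ++ R.map Prod.fst).length ≤ m := by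
        rw [← hL, List.length_map]; exact hlen
      simp only
      congr 3
      rw [hL]
      symm
      apply observation_congr N _ _
        ((((advHistory ε d N A j).map Prod.fst ++ [s]).length : ℝ) + 1 / 2) s
      · exact fun e => (cap_append ε d hε0 _ _ m hlen' hd e).1
      · exact fun e => (cap_append ε d hε0 _ _ m hlen' hd e).2
      · intro e he
        exact cap_low ε d hε _ e s (by simp) he

end Adversary

/-! ### Counting -/

section Counting

variable {k K : ℕ}

theorem card_neighbors (q : Fin k × Fin K) (S : Finset (Fin k × Fin K))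
    (hS : ∀ w ∈ S, (rook k K).Adj q w) : S.card ≤ (K - 1) + (k - 1) := by
  classical
  have : S ⊆ ({q.1} ×ˢ (Finset.univ.erase q.2)) ∪ ((Finset.univ.erase q.1) ×ˢ {q.2}) := by
    intro w hw
    rcases hS w hw with ⟨h1, h2⟩ | ⟨h1, h2⟩
    · exact Finset.mem_union.2 (Or.inl (Finset.mem_product.2
        ⟨Finset.mem_singleton.2 h1.symm, Finset.mem_erase.2 ⟨Ne.symm h2, Finset.mem_univ _⟩⟩))
    · exact Finset.mem_union.2 (Or.inr (Finset.mem_product.2
        ⟨Finset.mem_erase.2 ⟨Ne.symm h1, Finset.mem_univ _⟩, Finset.mem_singleton.2 h2.symm⟩))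
  refine (Finset.card_le_card this).trans ((Finset.card_union_le _ _).trans ?_)
  simp

theorem two_mul_sum : 2 * ∑ v : Fin k × Fin K, (k - 1 - (v.1 : ℕ)) = K * (k * (k - 1)) := by
  rw [Fintype.sum_prod_type]
  simp only [Finset.sum_const, Finset.card_univ, Fintype.card_fin, smul_eq_mul]
  rw [← Finset.mul_sum, Fin.sum_univ_eq_sum_range (fun i => k - 1 - i) k,
    Finset.sum_range_reflect (fun i => i) k, mul_left_comm, mul_comm 2,
    Finset.sum_range_id_mul_two]

/-- The edges `(v, (j, v.2))` with `v ∉ Q` and `v.1 < j`. -/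
noncomputable def goodEdges (Q : Finset (Fin k × Fin K)) : Finset (Sym2 (Fin k × Fin K)) := by
  classical
  exact ((Finset.univ \ Q).sigma (fun v => Finset.Ioi v.1)).image
    (fun x : (_ : Fin k × Fin K) × Fin k => s(x.1, (x.2, x.1.2)))

theorem goodEdges_card (Q : Finset (Fin k × Fin K)) :
    K * (k * (k - 1)) ≤ 2 * (goodEdges Q).card + 2 * (Q.card * (k - 1)) := by
  classical
  have h1 : (goodEdges Q).card = ∑ v ∈ Finset.univ \ Q, (k - 1 - (v.1 : ℕ)) := by
    unfold goodEdges
    rw [Finset.card_image_of_injOn, Finset.card_sigma]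
    · simp
    · rintro ⟨v, j⟩ hx ⟨v', j'⟩ hy hxy
      simp only [Finset.coe_sigma, Set.mem_sigma_iff, Finset.mem_coe, Finset.mem_Ioi] at hx hy
      simp only [Sym2.eq_iff] at hxy
      rcases hxy with ⟨h1, h2⟩ | ⟨h1, h2⟩
      · subst h1
        simp only [Prod.mk.injEq] at h2
        rw [h2.1]
      · exfalso
        have e1 := congrArg Prod.fst h1
        have e2 := congrArg Prod.fst h2
        simp only at e1 e2
        have h3 := hx.2
        have h4 := hy.2
        rw [e1] at h3
        rw [← e2] at h4
        exact absurd h3 (not_lt.2 h4.le)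
  have h2 : ∑ v ∈ Q, (k - 1 - (v.1 : ℕ)) ≤ Q.card * (k - 1) := by
    rw [← smul_eq_mul]
    exact Finset.sum_le_card_nsmul _ _ _ fun v _ => Nat.sub_le _ _
  have h3 := Finset.sum_sdiff (f := fun v : Fin k × Fin K => (k - 1 - (v.1 : ℕ)))
    (Finset.subset_univ Q)
  have h4 := two_mul_sum (k := k) (K := K)
  rw [h1]
  omega

theorem main_lower (hK : 1 ≤ K) (hKk : K ≤ k) (hk : 2 ≤ k) (A : Strategy (Fin k × Fin K)) (m : ℕ)
    (hA : ∀ c : Sym2 (Fin k × Fin K) → ℝ, (∀ e, 0 < c e) → Function.Injective c →
      Succeeds (rookNet k K) A k m c) : K * k ≤ 6 * m := by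
  classical
  obtain ⟨f, hf⟩ := exists_injective_nat (Sym2 (Fin k × Fin K))
  let ε : Sym2 (Fin k × Fin K) → ℝ := fun e => 1 / ((f e : ℝ) + 3)
  have hεpos : ∀ e, 0 < ε e := fun e => by
    have : (0 : ℝ) ≤ f e := Nat.cast_nonneg _
    simp only [ε]; positivity
  have hεlt : ∀ e, ε e < 1 / 2 := fun e => by
    have : (0 : ℝ) ≤ f e := Nat.cast_nonneg _
    simp only [ε]
    apply one_div_lt_one_div_of_lt <;> linarith
  have hεinj : ∀ e e', ε e = ε e' → e = e' := fun e e' h => by
    exact hf (by simpa [ε, one_div] using h)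
  let dn : Sym2 (Fin k × Fin K) → ℕ := Sym2.lift ⟨fun u v => if u.1 = v.1 then m + 3 else m + 2, by
    intro u v
    by_cases h : u.1 = v.1
    · simp [h]
    · simp [h, Ne.symm h]⟩
  let d : Sym2 (Fin k × Fin K) → ℝ := fun e => dn e
  have hd : ∀ e, (m : ℝ) + 2 ≤ d e := by
    intro e
    have : m + 2 ≤ dn e := by
      induction e using Sym2.ind with
      | _ u v =>
        simp only [dn, Sym2.lift_mk]
        split_ifs <;> omega
    simp only [d]
    exact_mod_cast this
  set L := (advHistory ε d (rookNet k K) A m).map Prod.fst with hL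
  have hLm : L.length ≤ m := by
    rw [hL, List.length_map]; exact advHistory_length ε d _ A m
  have hLm' : (L.length : ℝ) ≤ m := by exact_mod_cast hLm
  set c := cap ε d L with hc
  have hcnat : ∀ e, ∃ n : ℕ, c e = ε e + n := by
    intro e
    rcases cap_nat ε d L e with ⟨n, hn⟩ | h
    · exact ⟨n, hn⟩
    · exact ⟨dn e, h⟩
  have hcpos : ∀ e, 0 < c e := by
    intro e
    obtain ⟨n, hn⟩ := hcnat e
    rw [hn]
    have := hεpos e
    positivity
  have hcinj : Function.Injective c := by
    intro e e' h
    obtain ⟨n, hn⟩ := hcnat e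
    obtain ⟨n', hn'⟩ := hcnat e'
    have h1 := hεpos e
    have h2 := hεpos e'
    have h3 := hεlt e
    have h4 := hεlt e'
    rw [hn, hn'] at h
    have h5 : n = n' := by
      have h6 : (n : ℝ) < n' + 1 := by linarith
      have h7 : (n' : ℝ) < n + 1 := by linarith
      have h8 : n < n' + 1 := by exact_mod_cast h6
      have h9 : n' < n + 1 := by exact_mod_cast h7
      omega
    subst h5
    exact hεinj e e' (by linarith)
  have hhist := history_eq ε d (rookNet k K) A m (fun e => (hεpos e).le) hεlt hd m le_rfl
  obtain ⟨_, hopt⟩ := hA c hcpos hcinj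
  have hchosen : chosen (rookNet k K) c A m = {v | v ∈ L} := by
    unfold chosen
    rw [hc, hL, hhist]
    ext v
    simp
  rw [hchosen] at hopt
  -- upper bound for the revealed edges
  let E : Finset (Sym2 (Fin k × Fin K)) := L.toFinset.biUnion fun q =>
    (Finset.univ.filter fun w => (rook k K).Adj q w).image fun w => s(q, w)
  have hE : E.card ≤ m * ((K - 1) + (k - 1)) := by
    refine Finset.card_biUnion_le.trans ?_
    refine (Finset.sum_le_card_nsmul _ _ ((K - 1) + (k - 1)) ?_).trans ?_
    · intro q _
      refine Finset.card_image_le.trans (card_neighbors q _ ?_)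
      intro w hw
      simpa using hw
    · rw [smul_eq_mul]
      exact Nat.mul_le_mul_right _ ((List.toFinset_card_le L).trans hLm)
  have hup : (revealed (rookNet k K) c {v | v ∈ L}).ncard ≤ E.card := by
    rw [← Set.ncard_coe_finset]
    refine Set.ncard_le_ncard ?_ (Set.toFinite _)
    rintro e ⟨s, hs, t, p, hp, hb⟩
    have hs' : s ∈ L := hs
    obtain ⟨g, hg, hsg⟩ := exists_first_edge p hb.1
    have hcg : c g ≤ L.length + 1 / 2 := cap_low ε d hεlt L g s hs' hsg
    have hce : c e ≤ L.length + 1 / 2 := by
      by_cases hge : g = e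
      · rw [← hge]; exact hcg
      · exact (hb.2 g hg hge).le.trans hcg
    have hex : ∃ q ∈ L, q ∈ e := by
      by_contra hno
      push Not at hno
      have := cap_of_notMem ε d L e hno
      rw [← hc] at this
      have h1 := hd e
      have h2 := hεpos e
      linarith
    obtain ⟨q, hq, hqe⟩ := hex
    have hmem : e ∈ (rook k K).edgeSet := SimpleGraph.Walk.edges_subset_edgeSet p hb.1
    obtain ⟨w, rfl⟩ := Sym2.mem_iff_exists.1 hqe
    simp only [E, Finset.coe_biUnion, Set.mem_iUnion, Finset.coe_image, Finset.mem_coe]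
    exact ⟨q, by simpa using hq, w, by simpa using hmem, rfl⟩
  -- lower bound for a good set
  have hexa : ∀ i : Fin k, ∃ a : Fin K, (∃ b, (i, b) ∉ L) → (i, a) ∉ L := by
    intro i
    by_cases h : ∃ b, (i, b) ∉ L
    · obtain ⟨b, hb⟩ := h
      exact ⟨b, fun _ => hb⟩
    · exact ⟨⟨0, hK⟩, fun h' => absurd h' h⟩
  choose a ha using hexa
  let S : Finset (Fin k × Fin K) := Finset.univ.image fun i => (i, a i)
  have hS : S.card = k := by
    rw [Finset.card_image_of_injective]
    · simp
    · intro i j h
      exact congrArg Prod.fst h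
  have hlow : (goodEdges L.toFinset).card ≤ (revealed (rookNet k K) c S).ncard := by
    rw [← Set.ncard_coe_finset]
    refine Set.ncard_le_ncard ?_ (Set.toFinite _)
    intro e he
    simp only [goodEdges, Finset.coe_image, Set.mem_image, Finset.mem_coe, Finset.mem_sigma,
      Finset.mem_sdiff, Finset.mem_univ, true_and, List.mem_toFinset, Finset.mem_Ioi] at he
    obtain ⟨⟨⟨i, b⟩, j⟩, ⟨hv, hij⟩, rfl⟩ := he
    simp only at hv hij ⊢
    have hai : (i, a i) ∉ L := ha i ⟨b, hv⟩
    refine ⟨(i, a i), by simp [S], (j, b), ?_⟩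
    by_cases hb : a i = b
    · rw [hb]
      have hadj : (rook k K).Adj (i, b) (j, b) := Or.inr ⟨hij.ne, rfl⟩
      refine ⟨SimpleGraph.Walk.cons hadj SimpleGraph.Walk.nil, edge_shortest hadj, ?_, ?_⟩
      · simp
      · intro e' he' hne
        simp at he'
        exact absurd he' hne
    · refine ⟨hook hij.ne hb, hook_shortest hij hb, ?_, ?_⟩
      · show _ ∈ (hook hij.ne hb).edges
        rw [hook_edges]; simp
      · intro e' he' hne
        have he2 : e' = s((i, a i), (i, b)) := by
          change e' ∈ (hook hij.ne hb).edges at he'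
          rw [hook_edges] at he'
          simp only [List.mem_cons, List.not_mem_nil, or_false] at he'
          rcases he' with h | h
          · exact h
          · exact absurd h hne
        subst he2
        have hhigh : c s((i, a i), (i, b)) = ε s((i, a i), (i, b)) + (m + 3) := by
          rw [hc, cap_of_notMem]
          · simp [d, dn]
          · intro v hv' hve
            rw [Sym2.mem_iff] at hve
            rcases hve with rfl | rfl
            · exact hai hv'
            · exact hv hv'
        have hsmall : c s((i, b), (j, b)) < m + 3 := by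
          by_cases hno : ∀ v ∈ L, v ∉ s((i, b), (j, b))
          · rw [hc, cap_of_notMem ε d L _ hno]
            have h1 := hεlt s((i, b), (j, b))
            have h2 : d s((i, b), (j, b)) = m + 2 := by
              simp [d, dn, hij.ne]
            rw [h2]; linarith
          · push Not at hno
            obtain ⟨v, hv1, hv2⟩ := hno
            have := cap_low ε d hεlt L _ v hv1 hv2
            rw [← hc] at this
            linarith
        rw [hhigh]
        have := hεpos s((i, a i), (i, b))
        linarith
  have h1 := hopt S hS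
  have h2 := goodEdges_card L.toFinset (k := k) (K := K)
  have h3 : L.toFinset.card * (k - 1) ≤ m * (k - 1) :=
    Nat.mul_le_mul_right _ ((List.toFinset_card_le L).trans hLm)
  have h4 : m * ((K - 1) + (k - 1)) ≤ m * (2 * (k - 1)) := Nat.mul_le_mul_left _ (by omega)
  have h5 : K * k * (k - 1) ≤ 6 * m * (k - 1) := by
    have e1 : K * k * (k - 1) = K * (k * (k - 1)) := by ring
    have e2 : 6 * m * (k - 1) = 2 * (m * (2 * (k - 1))) + 2 * (m * (k - 1)) := by ring
    rw [e1, e2]
    omega
  exact Nat.le_of_mul_le_mul_right h5 (by omega)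

end Counting

end Pool.Agent.Lib.MP_617207_lc
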